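import Pool.Agent.Lib.FUni.Minor2

set_option autoImplicit false

namespace Pool.Agent.FUni

open SimpleGraph

variable {V W : Type}

/-- Rigid pieces: edge-maximal among graphs with no `K_t` minor, and without clique separator. -/
structure Good (t : ℕ) (P : SimpleGraph V) : Prop where
  free : ¬ HasCompleteMinor P t
  max : ∀ G : SimpleGraph V, P ≤ G → ¬ HasCompleteMinor G t → G ≤ P
  robust : ∀ Q : Set V, P.IsClique Q → Cn P Qᶜ ∧ (Qᶜ).Nonempty

/-- What we use about the image of a rigid piece in a host graph. -/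
structure AtomSet (U : SimpleGraph W) (S : Set W) : Prop where
  attach : ∀ K : Set W, Cn U K → (∀ x ∈ K, x ∉ S) → ∀ x ∈ S, ∀ y ∈ S, x ≠ y →
    (∃ a ∈ K, U.Adj x a) → (∃ b ∈ K, U.Adj y b) → U.Adj x y
  robust : ∀ Q : Set W, Q ⊆ S → U.IsClique Q → Cn U (S \ Q)

theorem Good.adj_iff {t : ℕ} {P : SimpleGraph V} {U : SimpleGraph W} (hP : Good t P)
    (hU : ¬ HasCompleteMinor U t) {φ : V → W} (hinj : Function.Injective φ)
    (hadj : ∀ u v, P.Adj u v → U.Adj (φ u) (φ v)) (u v : V) :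
    U.Adj (φ u) (φ v) ↔ P.Adj u v := by
  refine ⟨fun h => ?_, hadj u v⟩
  have h1 : P ≤ U.comap φ := fun a b hab => hadj a b hab
  have h2 : ¬ HasCompleteMinor (U.comap φ) t := fun h' =>
    hU (h'.of_inj φ hinj (fun _ _ h => h))
  exact hP.max _ h1 h2 h

theorem Good.atomSet {t : ℕ} {P : SimpleGraph V} {U : SimpleGraph W} (hP : Good t P)
    (hU : ¬ HasCompleteMinor U t) {φ : V → W} (hinj : Function.Injective φ)
    (hadj : ∀ u v, P.Adj u v → U.Adj (φ u) (φ v)) : AtomSet U (Set.range φ) := by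
  classical
  have hiff := hP.adj_iff hU hinj hadj
  constructor
  · rintro K hK hKS _ ⟨x, rfl⟩ _ ⟨y, rfl⟩ hxy ⟨a, ha, hxa⟩ ⟨b, hb, hyb⟩
    rw [hiff]
    by_contra hn
    have hxy' : x ≠ y := fun h => hxy (by rw [h])
    set G : SimpleGraph V := P ⊔ edge x y with hG
    have hPG : P ≤ G := le_sup_left
    have hGfree : ¬ HasCompleteMinor G t := by
      intro hm
      apply hU
      refine hm.of_model (fun v => if v = x then insert (φ x) K else {φ v}) ?_ ?_ ?_ ?_
      · intro v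
        by_cases hv : v = x
        · simp only [hv, if_true]; exact ⟨φ x, Set.mem_insert _ _⟩
        · simp only [hv, if_false]; exact ⟨φ v, rfl⟩
      · intro v
        by_cases hv : v = x
        · simp only [hv, if_true]
          rw [Set.insert_eq]
          exact (Cn.singleton U (φ x)).union_adj hK rfl ha hxa
        · simp only [hv, if_false]; exact Cn.singleton _ _
      · intro u v huv
        by_cases hu : u = x
        · have hv : v ≠ x := fun h => huv (by rw [hu, h])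
          simp only [hu, hv, if_true, if_false]
          rw [Set.disjoint_singleton_right, Set.mem_insert_iff, not_or]
          exact ⟨fun h => hv (hinj h), fun h => hKS _ h ⟨v, rfl⟩⟩
        · by_cases hv : v = x
          · simp only [hu, hv, if_true, if_false]
            rw [Set.disjoint_singleton_left, Set.mem_insert_iff, not_or]
            exact ⟨fun h => hu (hinj h), fun h => hKS _ h ⟨u, rfl⟩⟩
          · simp only [hu, hv, if_false]
            rw [Set.disjoint_singleton]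
            exact fun h => huv (hinj h)
      · intro u v huv
        have hmem : ∀ w, φ w ∈ (if w = x then insert (φ x) K else {φ w} : Set W) := by
          intro w
          by_cases hw : w = x
          · simp only [hw, if_true]; exact Set.mem_insert _ _
          · simp only [hw, if_false]; rfl
        rw [hG, SimpleGraph.sup_adj, SimpleGraph.edge_adj] at huv
        rcases huv with h | ⟨h, _⟩
        · exact ⟨φ u, hmem u, φ v, hmem v, hadj u v h⟩
        · rcases h with ⟨rfl, rfl⟩ | ⟨rfl, rfl⟩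
          · exact ⟨b, by simp only [if_true]; exact Set.mem_insert_of_mem _ hb, φ v, hmem v,
              hyb.symm⟩
          · exact ⟨φ u, hmem u, b, by simp only [if_true]; exact Set.mem_insert_of_mem _ hb, hyb⟩
    have := hP.max G hPG hGfree
    apply hn
    apply this
    rw [hG, SimpleGraph.sup_adj, SimpleGraph.edge_adj]
    exact Or.inr ⟨Or.inl ⟨rfl, rfl⟩, hxy'⟩
  · intro Q hQS hQ
    have hQ0 : P.IsClique (φ ⁻¹' Q) := by
      intro u hu v hv huv
      rw [← hiff]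
      exact hQ hu hv (fun h => huv (hinj h))
    have h1 := (hP.robust _ hQ0).1
    have h2 := h1.image (H := U) φ (fun a _ b _ hab => Or.inr (hadj a b hab))
    have h3 : φ '' (φ ⁻¹' Q)ᶜ = Set.range φ \ Q := by
      ext w
      constructor
      · rintro ⟨v, hv, rfl⟩
        exact ⟨⟨v, rfl⟩, hv⟩
      · rintro ⟨⟨v, rfl⟩, hv⟩
        exact ⟨v, hv, rfl⟩
    rw [h3] at h2
    exact h2

/-- Two atoms sharing a nonadjacent pair are nested (hence equal by symmetry). -/
theorem AtomSet.subset_of_pair {U : SimpleGraph W} {S T : Set W} (hS : AtomSet U S)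
    (hT : AtomSet U T) {x y : W} (hxS : x ∈ S) (hyS : y ∈ S) (hxT : x ∈ T) (hyT : y ∈ T)
    (hxy : x ≠ y) (hn : ¬ U.Adj x y) : T ⊆ S := by
  intro z hzT
  by_contra hzS
  set K := comp U Sᶜ z with hK
  have hKS : K ⊆ Sᶜ := comp_subset hzS
  set Q : Set W := {w | w ∈ S ∧ ∃ a ∈ K, U.Adj w a} with hQ
  have hQcl : U.IsClique Q := by
    intro u hu v hv huv
    exact hS.attach K (cn_comp _ _ _) (fun w hw => hKS hw) u hu.1 v hv.1 huv hu.2 hv.2
  have hQT : U.IsClique (Q ∩ T) := hQcl.subset Set.inter_subset_left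
  have hcn := hT.robust (Q ∩ T) Set.inter_subset_right hQT
  -- one of x, y is not in Q
  have hone : ∃ w, w ∈ S ∧ w ∈ T ∧ w ∉ Q := by
    by_cases hx : x ∈ Q
    · by_cases hy : y ∈ Q
      · exact absurd (hQcl hx hy hxy) hn
      · exact ⟨y, hyS, hyT, hy⟩
    · exact ⟨x, hxS, hxT, hx⟩
  obtain ⟨w, hwS, hwT, hwQ⟩ := hone
  have hz1 : z ∈ T \ (Q ∩ T) := ⟨hzT, fun h => hzS h.1.1⟩
  have hw1 : w ∈ T \ (Q ∩ T) := ⟨hwT, fun h => hwQ h.1⟩
  obtain ⟨u, v, _, huK, hv, hvK, huv⟩ :=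
    hcn.crossing hz1 hw1 (mem_comp_self U Sᶜ z) (fun h => (hKS h) hwS)
  have hvS : v ∈ S := by
    by_contra hvS
    exact hvK (comp_adj hzS huK hvS huv)
  exact hv.2 ⟨⟨hvS, u, huK, huv.symm⟩, hv.1⟩

theorem chain_step_subset {U : SimpleGraph W} {A B TA TB : Set W} {s a b e : W}
    (hA : AtomSet U A) (hB : AtomSet U B) (hsA : s ∈ A) (hsB : s ∈ B) (haA : a ∈ A)
    (hbB : b ∈ B) (hsa : s ≠ a) (hsb : s ≠ b) (hna : ¬ U.Adj s a) (hnb : ¬ U.Adj s b)
    (hTA : ∀ x, x ∈ TA → x ∈ A → x = a) (haT : a ∈ TA) (hTA1 : Cn U TA)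
    (hTA2 : Cn U (TA \ {a})) (hTB : ∀ x, x ∈ TB → x ∈ B → x = b) (hbT : b ∈ TB)
    (hTB1 : Cn U TB) (hTB2 : Cn U (TB \ {b})) (heA : e ∈ TA) (heB : e ∈ TB) : B ⊆ A := by
  by_cases hQ : U.IsClique (A ∩ B)
  swap
  · -- a nonadjacent pair in the intersection
    rw [SimpleGraph.isClique_iff, Set.Pairwise] at hQ
    push Not at hQ
    obtain ⟨x, hx, y, hy, hxy, hn⟩ := hQ
    exact hA.subset_of_pair hB hx.1 hy.1 hx.2 hy.2 hxy hn
  intro z hzB
  by_contra hzA
  have hbA : b ∉ A := fun h => hnb (hQ ⟨hsA, hsB⟩ ⟨h, hbB⟩ hsb)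
  set C := comp U Aᶜ b with hC
  have hCA : C ⊆ Aᶜ := comp_subset hbA
  have hbC : b ∈ C := mem_comp_self _ _ _
  have hBA : Cn U (B \ A) := by
    have := hB.robust (A ∩ B) Set.inter_subset_right hQ
    have h2 : B \ (A ∩ B) = B \ A := by ext w; simp
    rwa [h2] at this
  have hBAC : B \ A ⊆ C := subset_comp hBA (fun w hw => hw.2) ⟨hbB, hbA⟩ hbC
  have hsC : ∃ w ∈ C, U.Adj s w := by
    have hQ2 : U.IsClique ((A ∩ B) \ {s}) := hQ.subset Set.diff_subset
    have hcn := hB.robust ((A ∩ B) \ {s}) (fun w hw => hw.1.2) hQ2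
    have hs1 : s ∈ B \ ((A ∩ B) \ {s}) := ⟨hsB, fun h => h.2 rfl⟩
    have hb1 : b ∈ B \ ((A ∩ B) \ {s}) := ⟨hbB, fun h => hbA h.1.1⟩
    obtain ⟨u, w, _, hu, hw, hw', huw⟩ := hcn.crossing (C := {s}) hs1 hb1 rfl
      (fun h => hsb (by rw [Set.mem_singleton_iff] at h; exact h.symm))
    rw [Set.mem_singleton_iff] at hu
    subst hu
    refine ⟨w, hBAC ⟨hw.1, fun hwA => ?_⟩, huw⟩
    exact hw.2 ⟨⟨hwA, hw.1⟩, hw'⟩
  have heC : e ∉ C := by
    intro heC
    have hea : e ≠ a := fun h => hCA heC (h ▸ haA)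
    have hsub : TA \ {a} ⊆ C := subset_comp hTA2 (fun w hw hwA => hw.2 (hTA w hw.1 hwA))
      ⟨heA, hea⟩ heC
    obtain ⟨u, w, _, hu, hw, hw', huw⟩ := hTA1.crossing (C := {a}) haT heA rfl hea
    rw [Set.mem_singleton_iff] at hu
    subst hu
    exact hna (hA.attach C (cn_comp _ _ _) (fun w hw => hCA hw) s hsA _ haA hsa hsC
      ⟨w, hsub ⟨hw, hw'⟩, huw⟩)
  obtain ⟨u, w, _, huC, hwT, hwC, huw⟩ := hTB1.crossing hbT heB hbC heC
  have hwA : w ∈ A := by
    by_contra hwA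
    exact hwC (comp_adj hbA huC hwA huw)
  have hwb : w ≠ b := fun h => hwC (h ▸ hbC)
  have hws : s ≠ w := fun h => hsb (hTB s (h ▸ hwT) hsB)
  have hsw : U.Adj s w := hA.attach C (cn_comp _ _ _) (fun w hw => hCA hw) s hsA w hwA hws hsC
    ⟨u, huC, huw.symm⟩
  obtain ⟨u', w', _, hu', hw', hw'', huw'⟩ := hTB1.crossing (C := {b}) hbT hwT rfl hwb
  rw [Set.mem_singleton_iff] at hu'
  subst hu'
  exact hnb (hB.attach (TB \ {u'}) hTB2 (fun x hx hxB => hx.2 (hTB x hx.1 hxB)) s hsB _ hbB hsb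
    ⟨w, ⟨hwT, hwb⟩, hsw⟩ ⟨w', ⟨hw', hw''⟩, huw'⟩)

/-- The chain lemma: the first atom of a chain is determined by the start, the end. -/
theorem chain_step {U : SimpleGraph W} {A B TA TB : Set W} {s a b e : W}
    (hA : AtomSet U A) (hB : AtomSet U B) (hsA : s ∈ A) (hsB : s ∈ B) (haA : a ∈ A)
    (hbB : b ∈ B) (hsa : s ≠ a) (hsb : s ≠ b) (hna : ¬ U.Adj s a) (hnb : ¬ U.Adj s b)
    (hTA : ∀ x, x ∈ TA → x ∈ A → x = a) (haT : a ∈ TA) (hTA1 : Cn U TA)
    (hTA2 : Cn U (TA \ {a})) (hTB : ∀ x, x ∈ TB → x ∈ B → x = b) (hbT : b ∈ TB)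
    (hTB1 : Cn U TB) (hTB2 : Cn U (TB \ {b})) (heA : e ∈ TA) (heB : e ∈ TB) : A = B :=
  Set.Subset.antisymm
    (chain_step_subset hB hA hsB hsA hbB haA hsb hsa hnb hna hTB hbT hTB1 hTB2 hTA haT hTA1 hTA2
      heB heA)
    (chain_step_subset hA hB hsA hsB haA hbB hsa hsb hna hnb hTA haT hTA1 hTA2 hTB hbT hTB1 hTB2
      heA heB)

end Pool.Agent.FUni
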