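import Pool.Agent.Lib.FUni.Atoms

set_option autoImplicit false

namespace Pool.Agent.FUni

open SimpleGraph

/-- Pieces `P 0, …, P (L-1)` glued in a chain: piece `i` lives on `i*d, …, i*d+d`. -/
def chainGraph (d L : ℕ) (P : ℕ → SimpleGraph (Fin (d + 1))) : SimpleGraph ℕ where
  Adj u v := ∃ i, i < L ∧ ∃ a b : Fin (d + 1), u = i * d + a.1 ∧ v = i * d + b.1 ∧ (P i).Adj a b
  symm := by
    refine ⟨?_⟩
    rintro u v ⟨i, hi, a, b, hu, hv, hab⟩
    exact ⟨i, hi, b, a, hv, hu, hab.symm⟩
  loopless := by
    refine ⟨?_⟩
    rintro u ⟨i, hi, a, b, hu, hv, hab⟩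
    have : a = b := Fin.ext (by omega)
    subst this
    exact (P i).loopless.irrefl a hab

theorem chain_free {d t : ℕ} (ht : 2 ≤ t) (L : ℕ) (P : ℕ → SimpleGraph (Fin (d + 1)))
    (hP : ∀ i, i < L → ¬ HasCompleteMinor (P i) t) :
    ¬ HasCompleteMinor (chainGraph d L P) t := by
  induction L with
  | zero =>
    rintro ⟨B, _, _, hB3⟩
    obtain ⟨x, _, y, _, i, hi, _⟩ := hB3 ⟨0, by omega⟩ ⟨1, by omega⟩ (by simp)
    omega
  | succ L ih =>
    intro h
    have ih' := ih (fun i hi => hP i (by omega))
    have hmul : (L + 1) * d = L * d + d := by ring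
    have hle : ∀ i, i < L → i * d + d ≤ L * d := by
      intro i hi
      have : (i + 1) * d ≤ L * d := Nat.mul_le_mul_right d hi
      have h2 : (i + 1) * d = i * d + d := by ring
      omega
    have hcut := h.of_cut (v := L * d) (L := {x | x ≤ L * d ∨ L * d + d < x})
      (R := {x | L * d ≤ x ∧ x ≤ L * d + d}) ?_ ?_ ?_ ?_ ?_
    · rcases hcut with h1 | h1
      · apply ih'
        refine h1.of_inj Subtype.val Subtype.val_injective ?_
        rintro ⟨u, hu⟩ ⟨v, hv⟩ ⟨i, hi, a, b, hua, hvb, hab⟩
        change u = _ at hua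
        change v = _ at hvb
        by_cases hiL : i < L
        · exact ⟨i, hiL, a, b, hua, hvb, hab⟩
        · exfalso
          have hiL' : i = L := by omega
          subst hiL'
          have h1 := a.2
          have h2 := b.2
          simp only [Set.mem_ofPred_eq] at hu hv
          have : a = b := Fin.ext (by omega)
          subst this
          exact (P i).loopless.irrefl a hab
      · apply hP L (by omega)
        refine h1.of_inj (fun x => ⟨x.1 - L * d, by
          have := x.2; simp only [Set.mem_ofPred_eq] at this; omega⟩) ?_ ?_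
        · rintro ⟨u, hu⟩ ⟨v, hv⟩ huv
          simp only [Set.mem_ofPred_eq] at hu hv
          simp only [Fin.mk.injEq] at huv
          exact Subtype.ext (by simp only; omega)
        · rintro ⟨u, hu⟩ ⟨v, hv⟩ ⟨i, hi, a, b, hua, hvb, hab⟩
          change u = _ at hua
          change v = _ at hvb
          simp only [Set.mem_ofPred_eq] at hu hv
          have h1 := a.2
          have h2 := b.2
          by_cases hiL : i < L
          · exfalso
            have := hle i hiL
            have : a = b := Fin.ext (by omega)
            subst this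
            exact (P i).loopless.irrefl a hab
          · have hiL' : i = L := by omega
            subst hiL'
            have ha : (⟨u - i * d, by omega⟩ : Fin (d + 1)) = a := Fin.ext (by simp only; omega)
            have hb : (⟨v - i * d, by omega⟩ : Fin (d + 1)) = b := Fin.ext (by simp only; omega)
            simp only [ha, hb]
            exact hab
    · intro x
      simp only [Set.mem_ofPred_eq]; omega
    · intro x hx hx'
      simp only [Set.mem_ofPred_eq] at hx hx'; omega
    · simp only [Set.mem_ofPred_eq]; omega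
    · simp only [Set.mem_ofPred_eq]; omega
    · rintro u v ⟨i, hi, a, b, hua, hvb, hab⟩
      have h1 := a.2
      have h2 := b.2
      by_cases hiL : i < L
      · have := hle i hiL
        left
        simp only [Set.mem_ofPred_eq]; omega
      · have hiL' : i = L := by omega
        subst hiL'
        right
        simp only [Set.mem_ofPred_eq]; omega

section Tail

variable {d t L : ℕ} {P : ℕ → SimpleGraph (Fin (d + 1))}

theorem cn_block (hP : ∀ i, i < L → Good t (P i)) {i : ℕ} (hi : i < L) :
    Cn (chainGraph d L P) (Set.Icc (i * d) (i * d + d)) := by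
  have h := ((hP i hi).robust ∅ (by simp)).1
  have h2 := h.image (H := chainGraph d L P) (fun a : Fin (d + 1) => i * d + a.1)
    (fun a _ b _ hab => Or.inr ⟨i, hi, a, b, rfl, rfl, hab⟩)
  have h3 : (fun a : Fin (d + 1) => i * d + a.1) '' (∅ : Set (Fin (d + 1)))ᶜ =
      Set.Icc (i * d) (i * d + d) := by
    ext x
    simp only [Set.compl_empty, Set.image_univ, Set.mem_range, Set.mem_Icc]
    constructor
    · rintro ⟨a, rfl⟩
      have := a.2; omega
    · rintro ⟨h1, h2⟩
      exact ⟨⟨x - i * d, by omega⟩, by simp only; omega⟩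
  rw [h3] at h2
  exact h2

theorem cn_block' (hP : ∀ i, i < L → Good t (P i)) {i : ℕ} (hi : i < L) :
    Cn (chainGraph d L P) (Set.Ioc (i * d) (i * d + d)) := by
  have h := ((hP i hi).robust {0} (by simp)).1
  have h2 := h.image (H := chainGraph d L P) (fun a : Fin (d + 1) => i * d + a.1)
    (fun a _ b _ hab => Or.inr ⟨i, hi, a, b, rfl, rfl, hab⟩)
  have h3 : (fun a : Fin (d + 1) => i * d + a.1) '' ({0} : Set (Fin (d + 1)))ᶜ =
      Set.Ioc (i * d) (i * d + d) := by
    ext x
    simp only [Set.mem_image, Set.mem_compl_iff, Set.mem_singleton_iff, Set.mem_Ioc]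
    constructor
    · rintro ⟨a, ha, rfl⟩
      have := a.2
      have h0 : a.1 ≠ 0 := fun h => ha (Fin.ext h)
      omega
    · rintro ⟨h1, h2⟩
      refine ⟨⟨x - i * d, by omega⟩, ?_, by simp only; omega⟩
      intro h
      have := congrArg Fin.val h
      simp only [Fin.val_zero] at this
      omega
  rw [h3] at h2
  exact h2

theorem cn_tail (hd : 1 ≤ d) (hP : ∀ i, i < L → Good t (P i)) (k : ℕ) :
    ∀ i, i + k = L → Cn (chainGraph d L P) (Set.Icc (i * d) (L * d)) := by
  induction k with
  | zero =>
    intro i hi
    have : i = L := by omega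
    subst this
    rw [Set.Icc_self]
    exact Cn.singleton _ _
  | succ k ih =>
    intro i hi
    have h1 := ih (i + 1) (by omega)
    have h2 := cn_block hP (i := i) (by omega)
    have h3 : (i + 1) * d = i * d + d := by ring
    rw [h3] at h1
    have h4 : i * d + d ≤ L * d := by
      rw [← h3]; exact Nat.mul_le_mul_right d (by omega)
    have h5 := h2.union h1 ⟨i * d + d, by simp only [Set.mem_inter_iff, Set.mem_Icc]; omega⟩
    have h6 : Set.Icc (i * d) (i * d + d) ∪ Set.Icc (i * d + d) (L * d) =
        Set.Icc (i * d) (L * d) := by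
      ext x; simp only [Set.mem_union, Set.mem_Icc]; omega
    rw [h6] at h5
    exact h5

theorem cn_tail' (hd : 1 ≤ d) (hP : ∀ i, i < L → Good t (P i)) {i : ℕ} (hi : i ≤ L) :
    Cn (chainGraph d L P) (Set.Ioc (i * d) (L * d)) := by
  rcases Nat.lt_or_ge i L with hiL | hiL
  · have h1 := cn_tail hd hP (L - (i + 1)) (i + 1) (by omega)
    have h2 := cn_block' hP hiL
    have h3 : (i + 1) * d = i * d + d := by ring
    rw [h3] at h1
    have h4 : i * d + d ≤ L * d := by
      rw [← h3]; exact Nat.mul_le_mul_right d (by omega)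
    have h5 := h2.union h1 ⟨i * d + d, by
      simp only [Set.mem_inter_iff, Set.mem_Icc, Set.mem_Ioc]; omega⟩
    have h6 : Set.Ioc (i * d) (i * d + d) ∪ Set.Icc (i * d + d) (L * d) =
        Set.Ioc (i * d) (L * d) := by
      ext x; simp only [Set.mem_union, Set.mem_Icc, Set.mem_Ioc]; omega
    rw [h6] at h5
    exact h5
  · have : i = L := by omega
    subst this
    rw [Set.Ioc_self]
    intro x hx
    exact absurd hx (Set.notMem_empty x)

end Tail

end Pool.Agent.FUni
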