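import Pool.Agent.Lib.FUni.Chain

set_option autoImplicit false

namespace Pool.Agent.FUni

open SimpleGraph

variable {W : Type} {U : SimpleGraph W} {d t L : ℕ}

/-- An embedding of a chain graph in a host graph. -/
structure Emb (d L : ℕ) (P : ℕ → SimpleGraph (Fin (d + 1))) (U : SimpleGraph W) (g : ℕ → W) :
    Prop where
  inj : ∀ x y, x ≤ L * d → y ≤ L * d → g x = g y → x = y
  adj : ∀ x y, (chainGraph d L P).Adj x y → U.Adj (g x) (g y)

/-- The image of the block number `i`. -/
def blk (g : ℕ → W) (d i : ℕ) : Set W := g '' Set.Icc (i * d) (i * d + d)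

theorem mul_lt_le {i : ℕ} (hi : i < L) : i * d + d ≤ L * d := by
  have : (i + 1) * d ≤ L * d := Nat.mul_le_mul_right d hi
  have h2 : (i + 1) * d = i * d + d := by ring
  omega

theorem range_piece (g : ℕ → W) (i : ℕ) :
    Set.range (fun a : Fin (d + 1) => g (i * d + a.1)) = blk g d i := by
  ext w
  constructor
  · rintro ⟨a, rfl⟩
    have := a.2
    exact ⟨i * d + a.1, by simp only [Set.mem_Icc]; omega, rfl⟩
  · rintro ⟨x, hx, rfl⟩
    simp only [Set.mem_Icc] at hx
    exact ⟨⟨x - i * d, by omega⟩, by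
      simp only
      congr 1
      omega⟩

variable {P P' : ℕ → SimpleGraph (Fin (d + 1))} {g g' : ℕ → W}

theorem piece_inj (hE : Emb d L P U g) {i : ℕ} (hi : i < L) :
    Function.Injective (fun a : Fin (d + 1) => g (i * d + a.1)) := by
  intro a b hab
  have h1 := a.2
  have h2 := b.2
  have h3 := mul_lt_le (d := d) hi
  have := hE.inj _ _ (by omega) (by omega) hab
  exact Fin.ext (by omega)

theorem piece_adj (hE : Emb d L P U g) {i : ℕ} (hi : i < L) (u v : Fin (d + 1))
    (h : (P i).Adj u v) : U.Adj (g (i * d + u.1)) (g (i * d + v.1)) :=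
  hE.adj _ _ ⟨i, hi, u, v, rfl, rfl, h⟩

theorem piece_adj_iff (hU : ¬ HasCompleteMinor U t) (hE : Emb d L P U g)
    (hP : ∀ i, i < L → Good t (P i)) {i : ℕ} (hi : i < L) (u v : Fin (d + 1)) :
    U.Adj (g (i * d + u.1)) (g (i * d + v.1)) ↔ (P i).Adj u v :=
  (hP i hi).adj_iff hU (piece_inj hE hi) (piece_adj hE hi) u v

theorem piece_atom (hU : ¬ HasCompleteMinor U t) (hE : Emb d L P U g)
    (hP : ∀ i, i < L → Good t (P i)) {i : ℕ} (hi : i < L) : AtomSet U (blk g d i) := by
  rw [← range_piece]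
  exact (hP i hi).atomSet hU (piece_inj hE hi) (piece_adj hE hi)

theorem tail_cn (hd : 1 ≤ d) (hE : Emb d L P U g) (hP : ∀ i, i < L → Good t (P i)) {i : ℕ}
    (hi : i ≤ L) : Cn U (g '' Set.Icc (i * d) (L * d)) :=
  (cn_tail hd hP (L - i) i (by omega)).image g (fun a _ b _ hab => Or.inr (hE.adj a b hab))

theorem tail_cn' (hd : 1 ≤ d) (hE : Emb d L P U g) (hP : ∀ i, i < L → Good t (P i)) {i : ℕ}
    (hi : i ≤ L) : Cn U ((g '' Set.Icc (i * d) (L * d)) \ {g (i * d)}) := by
  have h := (cn_tail' hd hP hi).image g (fun a _ b _ hab => Or.inr (hE.adj a b hab))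
  have hle : i * d ≤ L * d := Nat.mul_le_mul_right d hi
  have h2 : g '' Set.Ioc (i * d) (L * d) = (g '' Set.Icc (i * d) (L * d)) \ {g (i * d)} := by
    ext w
    constructor
    · rintro ⟨x, hx, rfl⟩
      simp only [Set.mem_Ioc] at hx
      refine ⟨⟨x, by simp only [Set.mem_Icc]; omega, rfl⟩, ?_⟩
      intro hxx
      rw [Set.mem_singleton_iff] at hxx
      have := hE.inj _ _ (by omega) (by omega) hxx
      omega
    · rintro ⟨⟨x, hx, rfl⟩, hx2⟩
      simp only [Set.mem_Icc] at hx
      refine ⟨x, ?_, rfl⟩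
      simp only [Set.mem_Ioc]
      rcases Nat.lt_or_ge (i * d) x with h | h
      · exact ⟨h, hx.2⟩
      · exfalso
        have : x = i * d := by omega
        exact hx2 (by rw [this]; rfl)
  rw [h2] at h
  exact h

theorem blk_eq (hd : 1 ≤ d) (hU : ¬ HasCompleteMinor U t) (hE : Emb d L P U g)
    (hE' : Emb d L P' U g') (hP : ∀ i, i < L → Good t (P i)) (hP' : ∀ i, i < L → Good t (P' i))
    (hr : ∀ i, i < L → ¬ (P i).Adj 0 (Fin.last d)) (hr' : ∀ i, i < L → ¬ (P' i).Adj 0 (Fin.last d))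
    {i : ℕ} (hi : i < L) (hs : g (i * d) = g' (i * d)) (he : g (L * d) = g' (L * d)) :
    blk g d i = blk g' d i := by
  have h3 := mul_lt_le (d := d) hi
  have h4 : (i + 1) * d = i * d + d := by ring
  have hn : ¬ U.Adj (g (i * d)) (g (i * d + d)) := by
    have := piece_adj_iff hU hE hP hi 0 (Fin.last d)
    simp only [Fin.val_zero, add_zero, Fin.val_last] at this
    rw [this]; exact hr i hi
  have hn' : ¬ U.Adj (g' (i * d)) (g' (i * d + d)) := by
    have := piece_adj_iff hU hE' hP' hi 0 (Fin.last d)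
    simp only [Fin.val_zero, add_zero, Fin.val_last] at this
    rw [this]; exact hr' i hi
  have hT := tail_cn hd hE hP (i := i + 1) (by omega)
  have hT' := tail_cn hd hE' hP' (i := i + 1) (by omega)
  have hT2 := tail_cn' hd hE hP (i := i + 1) (by omega)
  have hT2' := tail_cn' hd hE' hP' (i := i + 1) (by omega)
  rw [h4] at hT hT' hT2 hT2'
  refine chain_step (s := g (i * d)) (a := g (i * d + d)) (b := g' (i * d + d))
    (e := g (L * d)) (TA := g '' Set.Icc (i * d + d) (L * d))
    (TB := g' '' Set.Icc (i * d + d) (L * d)) (piece_atom hU hE hP hi) (piece_atom hU hE' hP' hi)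
    ⟨i * d, by simp, rfl⟩ (hs ▸ ⟨i * d, by simp, rfl⟩) ⟨i * d + d, by simp, rfl⟩
    ⟨i * d + d, by simp, rfl⟩ ?_ ?_ hn ?_ ?_ ⟨i * d + d, by simp [h3], rfl⟩ hT hT2 ?_
    ⟨i * d + d, by simp [h3], rfl⟩ hT' hT2' ⟨L * d, by simp [h3], rfl⟩
    (he ▸ ⟨L * d, by simp [h3], rfl⟩)
  · intro h
    have := hE.inj _ _ (by omega) (by omega) h
    omega
  · intro h
    rw [hs] at h
    have := hE'.inj _ _ (by omega) (by omega) h
    omega
  · rw [hs]; exact hn'
  · rintro x ⟨y, hy, rfl⟩ ⟨z, hz, hzy⟩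
    simp only [Set.mem_Icc] at hy hz
    have := hE.inj _ _ (by omega) (by omega) hzy
    congr 1
    omega
  · rintro x ⟨y, hy, rfl⟩ ⟨z, hz, hzy⟩
    simp only [Set.mem_Icc] at hy hz
    have := hE'.inj _ _ (by omega) (by omega) hzy
    congr 1
    omega

theorem iso_of_blk_eq (hU : ¬ HasCompleteMinor U t) (hE : Emb d L P U g)
    (hE' : Emb d L P' U g') (hP : ∀ i, i < L → Good t (P i)) (hP' : ∀ i, i < L → Good t (P' i))
    {i : ℕ} (hi : i < L) (h : blk g d i = blk g' d i) : Nonempty (P i ≃g P' i) := by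
  have h1 : ∀ a : Fin (d + 1), ∃ b : Fin (d + 1), g' (i * d + b.1) = g (i * d + a.1) := by
    intro a
    have : g (i * d + a.1) ∈ blk g d i := by
      rw [← range_piece]; exact ⟨a, rfl⟩
    rw [h, ← range_piece] at this
    exact this
  choose ψ hψ using h1
  have hinj : Function.Injective ψ := by
    intro a b hab
    apply piece_inj hE hi
    simp only
    rw [← hψ a, ← hψ b, hab]
  have hbij : Function.Bijective ψ := Finite.injective_iff_bijective.mp hinj
  refine ⟨⟨Equiv.ofBijective ψ hbij, ?_⟩⟩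
  intro a b
  simp only [Equiv.ofBijective_apply]
  rw [← piece_adj_iff hU hE' hP' hi, ← piece_adj_iff hU hE hP hi, hψ, hψ]

open Classical in
/-- A labelling of the vertices of a set of size `d+1`. -/
noncomputable def lab (d : ℕ) (S : Set W) : W → Fin (d + 1) :=
  if h : ∃ φ : Fin (d + 1) → W, Function.Injective φ ∧ Set.range φ = S then
    Function.invFun h.choose else fun _ => 0

theorem lab_inj (hE : Emb d L P U g) {i : ℕ} (hi : i < L) {x y : W} (hx : x ∈ blk g d i)
    (hy : y ∈ blk g d i) (hxy : lab d (blk g d i) x = lab d (blk g d i) y) : x = y := by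
  classical
  have h : ∃ φ : Fin (d + 1) → W, Function.Injective φ ∧ Set.range φ = blk g d i :=
    ⟨_, piece_inj hE hi, range_piece g i⟩
  simp only [lab, h, dif_pos] at hxy
  have h1 := h.choose_spec.2
  rw [← h1] at hx hy
  have h2 := Function.invFun_eq hx
  have h3 := Function.invFun_eq hy
  rw [← h2, ← h3, hxy]

/-- The counting bound: few hosts embed all chains. -/
theorem card_bound (hd : 1 ≤ d) (hU : ¬ HasCompleteMinor U t) {ι : Type} [Fintype ι] [Fintype W]
    (Q : ι → SimpleGraph (Fin (d + 1))) (hgood : ∀ τ, Good t (Q τ))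
    (hroot : ∀ τ, ¬ (Q τ).Adj 0 (Fin.last d)) (hiso : ∀ σ τ, Nonempty (Q σ ≃g Q τ) → σ = τ)
    (hemb : ∀ τ : Fin L → ι, ∃ g : ℕ → W,
      Emb d L (fun i => if h : i < L then Q (τ ⟨i, h⟩) else ⊥) U g) :
    Fintype.card ι ^ L ≤ Fintype.card W ^ 2 * (d + 1) ^ L := by
  classical
  choose g hg using hemb
  set code : (Fin L → ι) → (W × W) × (Fin L → Fin (d + 1)) := fun τ =>
    ((g τ 0, g τ (L * d)), fun i => lab d (blk (g τ) d i.1) (g τ (i.1 * d + d))) with hcode
  have hP : ∀ τ : Fin L → ι, ∀ i, i < L →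
      Good t ((fun i => if h : i < L then Q (τ ⟨i, h⟩) else ⊥) i : SimpleGraph (Fin (d + 1))) := by
    intro τ i hi
    simp only [hi, dif_pos]
    exact hgood _
  have hr : ∀ τ : Fin L → ι, ∀ i, i < L →
      ¬ ((fun i => if h : i < L then Q (τ ⟨i, h⟩) else ⊥) i : SimpleGraph (Fin (d + 1))).Adj
        0 (Fin.last d) := by
    intro τ i hi
    simp only [hi, dif_pos]
    exact hroot _
  have hinj : Function.Injective code := by
    intro σ τ hst
    simp only [hcode, Prod.mk.injEq] at hst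
    obtain ⟨⟨h0, he⟩, hl⟩ := hst
    have key : ∀ i, i ≤ L → g σ (i * d) = g τ (i * d) := by
      intro i
      induction i with
      | zero => intro _; simpa using h0
      | succ i ih =>
        intro hi
        have h1 := ih (by omega)
        have h2 := blk_eq hd hU (hg σ) (hg τ) (hP σ) (hP τ) (hr σ) (hr τ) (i := i) (by omega) h1 he
        have h3 := congrFun hl ⟨i, by omega⟩
        simp only at h3
        rw [h2] at h3
        have h4 : (i + 1) * d = i * d + d := by ring
        rw [h4]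
        refine lab_inj (hg τ) (i := i) (by omega) ?_ ⟨i * d + d, by simp, rfl⟩ h3
        rw [← h2]
        exact ⟨i * d + d, by simp, rfl⟩
    funext i
    have h2 := blk_eq hd hU (hg σ) (hg τ) (hP σ) (hP τ) (hr σ) (hr τ) i.2 (key i.1 i.2.le) he
    have h3 := iso_of_blk_eq hU (hg σ) (hg τ) (hP σ) (hP τ) i.2 h2
    apply hiso
    simpa using h3
  have h := Fintype.card_le_of_injective code hinj
  rw [Fintype.card_prod, Fintype.card_prod, Fintype.card_fun, Fintype.card_fun, Fintype.card_fin,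
    Fintype.card_fin] at h
  rw [sq]
  exact h

end Pool.Agent.FUni
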