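import Mathlib

set_option autoImplicit false

namespace Pool.Agent.FUni

open SimpleGraph

variable {V W : Type}

/-- Reachability inside a vertex set. -/
def Rch (G : SimpleGraph V) (S : Set V) : V → V → Prop :=
  Relation.ReflTransGen (fun a b => G.Adj a b ∧ a ∈ S ∧ b ∈ S)

/-- `S` is preconnected in `G`: any two vertices of `S` are joined inside `S`. -/
def Cn (G : SimpleGraph V) (S : Set V) : Prop := ∀ x ∈ S, ∀ y ∈ S, Rch G S x y

theorem Rch.refl' (G : SimpleGraph V) (S : Set V) (x : V) : Rch G S x x :=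
  Relation.ReflTransGen.refl

theorem Rch.symm' {G : SimpleGraph V} {S : Set V} {x y : V} (h : Rch G S x y) : Rch G S y x := by
  induction h with
  | refl => exact Relation.ReflTransGen.refl
  | tail _ h2 ih => exact Relation.ReflTransGen.head ⟨h2.1.symm, h2.2.2, h2.2.1⟩ ih

theorem Rch.trans' {G : SimpleGraph V} {S : Set V} {x y z : V} (h : Rch G S x y)
    (h' : Rch G S y z) : Rch G S x z := Relation.ReflTransGen.trans h h'

theorem Rch.mono {G H : SimpleGraph V} {S T : Set V} (hGH : G ≤ H) (hST : S ⊆ T) {x y : V}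
    (h : Rch G S x y) : Rch H T x y := by
  induction h with
  | refl => exact Relation.ReflTransGen.refl
  | tail _ h2 ih => exact Relation.ReflTransGen.tail ih ⟨hGH h2.1, hST h2.2.1, hST h2.2.2⟩

theorem Rch.single' {G : SimpleGraph V} {S : Set V} {x y : V} (h : G.Adj x y) (hx : x ∈ S)
    (hy : y ∈ S) : Rch G S x y := Relation.ReflTransGen.single ⟨h, hx, hy⟩

theorem Rch.mem_right {G : SimpleGraph V} {S : Set V} {x y : V} (h : Rch G S x y) (hx : x ∈ S) :
    y ∈ S := by
  induction h with
  | refl => exact hx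
  | tail _ h2 _ => exact h2.2.2

theorem cn_iff {G : SimpleGraph V} {S : Set V} : Cn G S ↔ (G.induce S).Preconnected := by
  constructor
  · intro h x y
    have hr := h x.1 x.2 y.1 y.2
    have key : ∀ z (hz : Rch G S x.1 z), ∃ hzS : z ∈ S, (G.induce S).Reachable x ⟨z, hzS⟩ := by
      intro z hz
      induction hz with
      | refl => exact ⟨x.2, Reachable.refl _⟩
      | tail _ h2 ih =>
        obtain ⟨hzS, hre⟩ := ih
        refine ⟨h2.2.2, hre.trans ?_⟩
        apply SimpleGraph.Adj.reachable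
        exact h2.1
    obtain ⟨_, h3⟩ := key y.1 hr
    exact h3
  · intro h x hx y hy
    have hr := h ⟨x, hx⟩ ⟨y, hy⟩
    rw [SimpleGraph.reachable_iff_reflTransGen] at hr
    have key : ∀ z : S, Relation.ReflTransGen (G.induce S).Adj ⟨x, hx⟩ z → Rch G S x z.1 := by
      intro z hz
      induction hz with
      | refl => exact Rch.refl' _ _ _
      | @tail b c _ h2 ih =>
        exact ih.trans' (Rch.single' h2 b.2 c.2)
    exact key ⟨y, hy⟩ hr

theorem connected_iff_cn {G : SimpleGraph V} {S : Set V} :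
    (G.induce S).Connected ↔ Cn G S ∧ S.Nonempty := by
  rw [SimpleGraph.connected_iff, cn_iff]
  constructor
  · rintro ⟨h1, h2⟩
    exact ⟨h1, Set.nonempty_coe_sort.mp h2⟩
  · rintro ⟨h1, h2⟩
    exact ⟨h1, Set.nonempty_coe_sort.mpr h2⟩

theorem Cn.singleton (G : SimpleGraph V) (x : V) : Cn G {x} := by
  intro a ha b hb
  rw [Set.mem_singleton_iff] at ha hb
  subst ha; subst hb
  exact Rch.refl' _ _ _

theorem Cn.mono_graph {G H : SimpleGraph V} (h : G ≤ H) {S : Set V} (hS : Cn G S) : Cn H S :=
  fun x hx y hy => (hS x hx y hy).mono h (le_refl _)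

theorem Cn.of_center {G : SimpleGraph V} {S : Set V} (c : V) (h : ∀ x ∈ S, Rch G S c x) :
    Cn G S := fun x hx y hy => (h x hx).symm'.trans' (h y hy)

theorem Cn.union {G : SimpleGraph V} {S T : Set V} (hS : Cn G S) (hT : Cn G T)
    (hne : (S ∩ T).Nonempty) : Cn G (S ∪ T) := by
  obtain ⟨c, hcS, hcT⟩ := hne
  apply Cn.of_center c
  rintro x (hx | hx)
  · exact (hS c hcS x hx).mono (le_refl _) Set.subset_union_left
  · exact (hT c hcT x hx).mono (le_refl _) Set.subset_union_right

theorem Cn.union_adj {G : SimpleGraph V} {S T : Set V} (hS : Cn G S) (hT : Cn G T) {x y : V}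
    (hx : x ∈ S) (hy : y ∈ T) (h : G.Adj x y) : Cn G (S ∪ T) := by
  apply Cn.of_center x
  rintro z (hz | hz)
  · exact (hS x hx z hz).mono (le_refl _) Set.subset_union_left
  · exact (Rch.single' h (Or.inl hx) (Or.inr hy)).trans'
      ((hT y hy z hz).mono (le_refl _) Set.subset_union_right)

/-- A path inside a connected set from inside `C` to outside `C` crosses. -/
theorem Cn.crossing {G : SimpleGraph V} {T C : Set V} (hT : Cn G T) {b e : V} (hb : b ∈ T)
    (he : e ∈ T) (hbC : b ∈ C) (heC : e ∉ C) :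
    ∃ u w, u ∈ T ∧ u ∈ C ∧ w ∈ T ∧ w ∉ C ∧ G.Adj u w := by
  have h := hT b hb e he
  by_contra hcon
  push Not at hcon
  have key : ∀ z, Rch G T b z → z ∈ C := by
    intro z hz
    induction hz with
    | refl => exact hbC
    | @tail u w _ h2 ih =>
      by_contra hw
      exact hcon u w h2.2.1 ih h2.2.2 hw h2.1
  exact heC (key e h)

/-- Images of connected sets under weak homomorphisms are connected. -/
theorem Cn.image {G : SimpleGraph V} {H : SimpleGraph W} {S : Set V} (hS : Cn G S) (f : V → W)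
    (hf : ∀ a ∈ S, ∀ b ∈ S, G.Adj a b → f a = f b ∨ H.Adj (f a) (f b)) : Cn H (f '' S) := by
  rintro _ ⟨x, hx, rfl⟩ _ ⟨y, hy, rfl⟩
  have h := hS x hx y hy
  have key : ∀ z, Rch G S x z → Rch H (f '' S) (f x) (f z) := by
    intro z hz
    induction hz with
    | refl => exact Rch.refl' _ _ _
    | @tail u w _ h2 ih =>
      rcases hf u h2.2.1 w h2.2.2 h2.1 with he | he
      · rw [← he]; exact ih
      · exact ih.trans' (Rch.single' he ⟨u, h2.2.1, rfl⟩ ⟨w, h2.2.2, rfl⟩)
  exact key y h

/-- The component of `x` in the subgraph induced by `S`. -/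
def comp (G : SimpleGraph V) (S : Set V) (x : V) : Set V := {y | Rch G S x y}

theorem mem_comp_self (G : SimpleGraph V) (S : Set V) (x : V) : x ∈ comp G S x := Rch.refl' _ _ _

theorem comp_subset {G : SimpleGraph V} {S : Set V} {x : V} (hx : x ∈ S) : comp G S x ⊆ S :=
  fun _ hy => Rch.mem_right hy hx

theorem cn_comp (G : SimpleGraph V) (S : Set V) (x : V) : Cn G (comp G S x) := by
  apply Cn.of_center x
  intro y hy
  have key : ∀ z, Rch G S x z → Rch G (comp G S x) x z := by
    intro z hz
    induction hz with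
    | refl => exact Rch.refl' _ _ _
    | @tail u w h1 h2 ih =>
      exact ih.trans' (Rch.single' h2.1 h1 (Relation.ReflTransGen.tail h1 h2))
  exact key y hy

theorem comp_adj {G : SimpleGraph V} {S : Set V} {x u w : V} (hx : x ∈ S)
    (hu : u ∈ comp G S x) (hw : w ∈ S) (h : G.Adj u w) : w ∈ comp G S x :=
  Rch.trans' hu (Rch.single' h (comp_subset hx hu) hw)

theorem subset_comp {G : SimpleGraph V} {S K : Set V} {x u : V} (hK : Cn G K) (hKS : K ⊆ S)
    (huK : u ∈ K) (hu : u ∈ comp G S x) : K ⊆ comp G S x := fun w hw =>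
  Rch.trans' hu ((hK u huK w hw).mono (le_refl _) hKS)

end Pool.Agent.FUni
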