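import Mathlib

set_option autoImplicit false

namespace Pool.Agent.FUni

/-- `G` has a `K_t` minor: there are `t` pairwise disjoint vertex sets, each inducing a
connected (in particular nonempty) subgraph, any two of which are joined by an edge of `G`. -/
def HasCompleteMinor {V : Type} (G : SimpleGraph V) (t : ℕ) : Prop :=
  ∃ B : Fin t → Set V,
    (∀ i, (G.induce (B i)).Connected) ∧
    (∀ i j, i ≠ j → Disjoint (B i) (B j)) ∧
    (∀ i j, i ≠ j → ∃ x ∈ B i, ∃ y ∈ B j, G.Adj x y)

end Pool.Agent.FUni
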