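import Pool.Agent.Lib.FUni.Code

set_option autoImplicit false

namespace Pool.Agent.FUni

open SimpleGraph

variable {p f1 f2 : ℕ}

/-- Vertex set of the base graphs. -/
abbrev Vx (p f1 f2 : ℕ) : Type := ((Fin p × Bool) ⊕ Fin p) ⊕ (Fin f1 ⊕ Fin f2)

/-- Colour classes of the base graphs. -/
def col : Vx p f1 f2 → ℕ
  | Sum.inl _ => 0
  | Sum.inr (Sum.inl _) => 1
  | Sum.inr (Sum.inr _) => 2

/-- Adjacency inside the first colour class. -/
def inner (χ : Fin p → Fin p → Bool) : ((Fin p × Bool) ⊕ Fin p) → ((Fin p × Bool) ⊕ Fin p) → Prop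
  | Sum.inl (i, b), Sum.inl (i', b') => i = i' ∧ b ≠ b'
  | Sum.inl (i, b), Sum.inr j => χ i j = b
  | Sum.inr j, Sum.inl (i, b) => χ i j = b
  | Sum.inr _, Sum.inr _ => False

theorem inner_symm (χ : Fin p → Fin p → Bool) : ∀ a b, inner χ a b → inner χ b a := by
  rintro (⟨i, b⟩ | j) (⟨i', b'⟩ | j') h
  · exact ⟨h.1.symm, h.2.symm⟩
  · exact h
  · exact h
  · exact h

theorem inner_irrefl (χ : Fin p → Fin p → Bool) : ∀ a, ¬ inner χ a a := by
  rintro (⟨i, b⟩ | j) h
  · exact h.2 rfl
  · exact h

theorem inner_trianglefree (χ : Fin p → Fin p → Bool) :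
    ∀ a b c, inner χ a b → inner χ b c → inner χ a c → False := by
  rintro (⟨i, x⟩ | j) (⟨i', x'⟩ | j') (⟨i'', x''⟩ | j'') h1 h2 h3
  · simp only [inner] at h1 h2 h3
    cases x <;> cases x' <;> cases x'' <;> simp_all
  · simp only [inner] at h1 h2 h3
    obtain ⟨rfl, h⟩ := h1
    exact h (h3.symm.trans h2)
  · simp only [inner] at h1 h2 h3
    obtain ⟨rfl, h⟩ := h3
    exact h (h1.symm.trans h2)
  · exact h2
  · simp only [inner] at h1 h2 h3
    obtain ⟨rfl, h⟩ := h2
    exact h (h1.symm.trans h3)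
  · exact h3
  · exact h1
  · exact h1

/-- The base graph of a choice function `χ`. -/
def baseGraph (f1 f2 : ℕ) (χ : Fin p → Fin p → Bool) : SimpleGraph (Vx p f1 f2) where
  Adj x y := col x ≠ col y ∨ ∃ a b, x = Sum.inl a ∧ y = Sum.inl b ∧ inner χ a b
  symm := by
    refine ⟨?_⟩
    rintro x y (h | ⟨a, b, rfl, rfl, h⟩)
    · exact Or.inl h.symm
    · exact Or.inr ⟨b, a, rfl, rfl, inner_symm χ a b h⟩
  loopless := by
    refine ⟨?_⟩
    rintro x (h | ⟨a, b, rfl, h2, h⟩)
    · exact h rfl
    · obtain rfl := Sum.inl_injective h2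
      exact inner_irrefl χ _ h

/-- The colour classes. -/
def cls (c : ℕ) : Finset (Vx p f1 f2) := Finset.univ.filter (fun x => col x = c)

theorem card_cls0 : (cls 0 : Finset (Vx p f1 f2)).card = 3 * p := by
  have h : (cls 0 : Finset (Vx p f1 f2)) = Finset.univ.image Sum.inl := by
    ext x
    simp only [cls, Finset.mem_filter, Finset.mem_univ, true_and, Finset.mem_image]
    rcases x with x | x | x <;> simp [col]
  rw [h, Finset.card_image_of_injective _ Sum.inl_injective, Finset.card_univ]
  simp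
  omega

theorem card_cls1 : (cls 1 : Finset (Vx p f1 f2)).card = f1 := by
  have h : (cls 1 : Finset (Vx p f1 f2)) = Finset.univ.image (fun x => Sum.inr (Sum.inl x)) := by
    ext x
    simp only [cls, Finset.mem_filter, Finset.mem_univ, true_and, Finset.mem_image]
    rcases x with x | x | x <;> simp [col]
  have hinj : Function.Injective (fun x : Fin f1 => (Sum.inr (Sum.inl x) : Vx p f1 f2)) :=
    fun a b h => Sum.inl_injective (Sum.inr_injective h)
  rw [h, Finset.card_image_of_injective _ hinj, Finset.card_univ]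
  simp

theorem card_cls2 : (cls 2 : Finset (Vx p f1 f2)).card = f2 := by
  have h : (cls 2 : Finset (Vx p f1 f2)) = Finset.univ.image (fun x => Sum.inr (Sum.inr x)) := by
    ext x
    simp only [cls, Finset.mem_filter, Finset.mem_univ, true_and, Finset.mem_image]
    rcases x with x | x | x <;> simp [col]
  have hinj : Function.Injective (fun x : Fin f2 => (Sum.inr (Sum.inr x) : Vx p f1 f2)) :=
    fun a b h => Sum.inr_injective (Sum.inr_injective h)
  rw [h, Finset.card_image_of_injective _ hinj, Finset.card_univ]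
  simp

theorem col_le (x : Vx p f1 f2) : col x ≤ 2 := by
  rcases x with x | x | x <;> simp [col]

theorem card_Vx : Fintype.card (Vx p f1 f2) = 3 * p + f1 + f2 := by
  simp
  omega

theorem base_clique (χ : Fin p → Fin p → Bool) (s : Finset (Vx p f1 f2))
    (hs : (baseGraph f1 f2 χ).IsClique (s : Set (Vx p f1 f2))) : s.card ≤ 4 := by
  classical
  have h0 : (s.filter (fun x => col x = 0)).card ≤ 2 := by
    by_contra hcon
    push Not at hcon
    rw [Finset.two_lt_card] at hcon
    obtain ⟨a, ha, b, hb, c, hc, hab, hac, hbc⟩ := hcon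
    simp only [Finset.mem_filter] at ha hb hc
    have e1 := hs ha.1 hb.1 hab
    have e2 := hs hb.1 hc.1 hbc
    have e3 := hs ha.1 hc.1 hac
    rcases e1 with e1 | ⟨a1, b1, rfl, rfl, e1⟩
    · exact e1 (by rw [ha.2, hb.2])
    rcases e2 with e2 | ⟨b2, c2, h1, rfl, e2⟩
    · exact e2 (by rw [hb.2, hc.2])
    rcases e3 with e3 | ⟨a3, c3, h3, h4, e3⟩
    · exact e3 (by rw [ha.2, hc.2])
    obtain rfl := Sum.inl_injective h1
    obtain rfl := Sum.inl_injective h3
    obtain rfl := Sum.inl_injective h4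
    exact inner_trianglefree χ _ _ _ e1 e2 e3
  have hother : ∀ c, c ≠ 0 → (s.filter (fun x => col x = c)).card ≤ 1 := by
    intro c hc
    rw [Finset.card_le_one]
    intro a ha b hb
    simp only [Finset.mem_filter] at ha hb
    by_contra hab
    rcases hs ha.1 hb.1 hab with e | ⟨a1, b1, rfl, rfl, _⟩
    · exact e (by rw [ha.2, hb.2])
    · exact hc ha.2.symm
  have h1 := hother 1 (by omega)
  have h2 := hother 2 (by omega)
  have hsum := Finset.card_eq_sum_card_fiberwise (f := col) (s := s) (t := Finset.range 3) (by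
    intro x _
    have := col_le x
    simp only [Finset.coe_range, Set.mem_Iio]
    omega)
  rw [hsum, Finset.sum_range_succ, Finset.sum_range_succ, Finset.sum_range_succ,
    Finset.sum_range_zero]
  omega

/-- Size conditions on the parameters. -/
structure Params (t p f1 f2 : ℕ) : Prop where
  ht : 5 ≤ t
  hsum : 3 * p + f1 + f2 = 2 * t - 5
  hp : 3 * p ≤ t - 5
  hf1 : f1 ≤ t - 5
  hf2 : f2 ≤ t - 5
  hp5 : 5 ≤ 3 * p
  hf15 : 5 ≤ f1
  hf25 : 5 ≤ f2

variable {t : ℕ}

theorem base_free (hpar : Params t p f1 f2) (χ : Fin p → Fin p → Bool) :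
    ¬ HasCompleteMinor (baseGraph f1 f2 χ) t := by
  intro h
  obtain ⟨s, hs, hcard⟩ := h.exists_clique
  have h1 := base_clique χ s hs
  rw [card_Vx] at hcard
  have h2 := hpar.hsum
  have h3 := hpar.ht
  omega

theorem no_clique5 (hpar : Params t p f1 f2) {P : SimpleGraph (Vx p f1 f2)}
    (hP : ∀ x y, col x ≠ col y → P.Adj x y) (hfree : ¬ HasCompleteMinor P t)
    (I : Finset (Vx p f1 f2)) (hI : P.IsClique (I : Set (Vx p f1 f2))) (hcard : I.card = 5) :
    False := by
  classical
  apply hfree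
  have hpar' := hpar
  obtain ⟨ht, hsum, hp, hf1, hf2, _, _, _⟩ := hpar'
  have h := HasCompleteMinor.of_clique_color (G := P) col hP I hI (t - 5) ?_ ?_
  · rw [hcard] at h
    have : 5 + (t - 5) = t := by omega
    rw [this] at h
    exact h
  · rw [card_Vx, hcard]; omega
  · intro c S hS
    have hsub : S ⊆ cls c := by
      intro x hx
      simp only [cls, Finset.mem_filter, Finset.mem_univ, true_and]
      exact (hS x hx).2
    have hle := Finset.card_le_card hsub
    rcases Nat.lt_or_ge 2 c with hc | hc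
    · have : (cls c : Finset (Vx p f1 f2)) = ∅ := by
        rw [Finset.eq_empty_iff_forall_notMem]
        intro x hx
        simp only [cls, Finset.mem_filter, Finset.mem_univ, true_and] at hx
        have := col_le x
        omega
      rw [this, Finset.card_empty] at hle
      omega
    · interval_cases c
      · rw [card_cls0] at hle; omega
      · rw [card_cls1] at hle; omega
      · rw [card_cls2] at hle; omega

theorem robust_of (hpar : Params t p f1 f2) {P : SimpleGraph (Vx p f1 f2)}
    (hP : ∀ x y, col x ≠ col y → P.Adj x y) (hfree : ¬ HasCompleteMinor P t)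
    (Q : Set (Vx p f1 f2)) (hQ : P.IsClique Q) : Cn P Qᶜ ∧ (Qᶜ).Nonempty := by
  classical
  obtain ⟨ht, hsum, hp, hf1, hf2, hp5, hf15, hf25⟩ := id hpar
  have hex : ∀ c, c ≤ 2 → ∃ x, x ∉ Q ∧ col x = c := by
    intro c hc
    by_contra hcon
    push Not at hcon
    have hsub : ∀ x : Vx p f1 f2, x ∈ (cls c : Finset (Vx p f1 f2)) → x ∈ Q := by
      intro x hx
      by_contra hxQ
      simp only [cls, Finset.mem_filter, Finset.mem_univ, true_and] at hx
      exact hcon x hxQ hx
    have hcard : 5 ≤ (cls c : Finset (Vx p f1 f2)).card := by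
      interval_cases c
      · rw [card_cls0]; exact hp5
      · rw [card_cls1]; exact hf15
      · rw [card_cls2]; exact hf25
    obtain ⟨I, hI1, hI2⟩ := Finset.exists_subset_card_eq hcard
    exact no_clique5 hpar hP hfree I (hQ.subset (fun x hx => hsub x (hI1 hx))) hI2
  constructor
  · intro x hx y hy
    by_cases hxy : col x = col y
    · obtain ⟨z, hzQ, hz⟩ : ∃ z, z ∉ Q ∧ col z ≠ col x := by
        by_cases h0 : col x = 0
        · obtain ⟨z, hz1, hz2⟩ := hex 1 (by omega)
          exact ⟨z, hz1, by omega⟩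
        · obtain ⟨z, hz1, hz2⟩ := hex 0 (by omega)
          exact ⟨z, hz1, by omega⟩
      exact (Rch.single' (hP x z hz.symm) hx hzQ).trans'
        (Rch.single' (hP z y (by rw [← hxy]; exact hz)) hzQ hy)
    · exact Rch.single' (hP x y hxy) hx hy
  · obtain ⟨z, hz, _⟩ := hex 0 (by omega)
    exact ⟨z, hz⟩

/-- An edge-maximal supergraph of the base graph with no `K_t` minor. -/
theorem exists_good (hpar : Params t p f1 f2) (χ : Fin p → Fin p → Bool) :
    ∃ P : SimpleGraph (Vx p f1 f2), baseGraph f1 f2 χ ≤ P ∧ Good t P := by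
  classical
  have hfin : ({G : SimpleGraph (Vx p f1 f2) | ¬ HasCompleteMinor G t}).Finite := Set.toFinite _
  obtain ⟨P, hle, hmax⟩ := hfin.exists_le_maximal
    (a := baseGraph f1 f2 χ) (by simp only [Set.mem_ofPred_eq]; exact base_free hpar χ)
  have hfree : ¬ HasCompleteMinor P t := hmax.1
  have hP : ∀ x y, col x ≠ col y → P.Adj x y := fun x y h => hle (Or.inl h)
  refine ⟨P, hle, hfree, ?_, fun Q hQ => robust_of hpar hP hfree Q hQ⟩
  intro G hPG hG
  exact hmax.2 hG hPG

theorem adj_iff_of_good (hpar : Params t p f1 f2) (χ : Fin p → Fin p → Bool)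
    {P : SimpleGraph (Vx p f1 f2)} (hle : baseGraph f1 f2 χ ≤ P) (hP : Good t P)
    (i : Fin p) (b : Bool) (j : Fin p) :
    P.Adj (Sum.inl (Sum.inl (i, b))) (Sum.inl (Sum.inr j)) ↔ χ i j = b := by
  classical
  obtain ⟨ht, hsum, hp, hf1, hf2, hp5, hf15, hf25⟩ := id hpar
  constructor
  · intro h
    by_contra hne
    have hcol : ∀ x y, col x ≠ col y → P.Adj x y := fun x y h => hle (Or.inl h)
    have hb : χ i j = !b := by
      cases hx : χ i j <;> cases b <;> simp_all
    have e1 : P.Adj (Sum.inl (Sum.inl (i, b))) (Sum.inl (Sum.inl (i, !b))) :=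
      hle (Or.inr ⟨_, _, rfl, rfl, by simp [inner]⟩)
    have e2 : P.Adj (Sum.inl (Sum.inl (i, !b))) (Sum.inl (Sum.inr j)) :=
      hle (Or.inr ⟨_, _, rfl, rfl, hb⟩)
    set v1 : Vx p f1 f2 := Sum.inl (Sum.inl (i, b)) with hv1
    set v2 : Vx p f1 f2 := Sum.inl (Sum.inl (i, !b)) with hv2
    set v3 : Vx p f1 f2 := Sum.inl (Sum.inr j) with hv3
    set v4 : Vx p f1 f2 := Sum.inr (Sum.inl ⟨0, by omega⟩) with hv4
    set v5 : Vx p f1 f2 := Sum.inr (Sum.inr ⟨0, by omega⟩) with hv5
    have e14 : P.Adj v1 v4 := hcol _ _ (by simp [hv1, hv4, col])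
    have e15 : P.Adj v1 v5 := hcol _ _ (by simp [hv1, hv5, col])
    have e24 : P.Adj v2 v4 := hcol _ _ (by simp [hv2, hv4, col])
    have e25 : P.Adj v2 v5 := hcol _ _ (by simp [hv2, hv5, col])
    have e34 : P.Adj v3 v4 := hcol _ _ (by simp [hv3, hv4, col])
    have e35 : P.Adj v3 v5 := hcol _ _ (by simp [hv3, hv5, col])
    have e45 : P.Adj v4 v5 := hcol _ _ (by simp [hv4, hv5, col])
    refine no_clique5 hpar hcol hP.free {v1, v2, v3, v4, v5} ?_ ?_
    · intro x hx y hy hxy
      simp only [Finset.coe_insert, Finset.coe_singleton, Set.mem_insert_iff,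
        Set.mem_singleton_iff] at hx hy
      rcases hx with rfl | rfl | rfl | rfl | rfl <;> rcases hy with h' | h' | h' | h' | h' <;>
        first
        | (exact absurd h'.symm hxy)
        | (rw [h']; first | assumption | (apply SimpleGraph.Adj.symm; assumption))
    · have n12 := e1.ne
      have n13 := h.ne
      have n23 := e2.ne
      have n14 := e14.ne
      have n15 := e15.ne
      have n24 := e24.ne
      have n25 := e25.ne
      have n34 := e34.ne
      have n35 := e35.ne
      have n45 := e45.ne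
      rw [Finset.card_insert_of_notMem, Finset.card_insert_of_notMem, Finset.card_insert_of_notMem,
        Finset.card_insert_of_notMem, Finset.card_singleton]
      · simp [n45]
      · simp [n34, n35]
      · simp [n23, n24, n25]
      · simp [n12, n13, n14, n15]
  · intro h
    exact hle (Or.inr ⟨_, _, rfl, rfl, h⟩)

theorem root_of_good (hpar : Params t p f1 f2) (χ : Fin p → Fin p → Bool)
    {P : SimpleGraph (Vx p f1 f2)} (hle : baseGraph f1 f2 χ ≤ P) (hP : Good t P)
    (x y : Fin f1) : ¬ P.Adj (Sum.inr (Sum.inl x)) (Sum.inr (Sum.inl y)) := by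
  classical
  obtain ⟨ht, hsum, hp, hf1, hf2, hp5, hf15, hf25⟩ := id hpar
  intro h
  have hcol : ∀ x y, col x ≠ col y → P.Adj x y := fun x y h => hle (Or.inl h)
  set v1 : Vx p f1 f2 := Sum.inr (Sum.inl x) with hv1
  set v2 : Vx p f1 f2 := Sum.inr (Sum.inl y) with hv2
  set v3 : Vx p f1 f2 := Sum.inl (Sum.inl (⟨0, by omega⟩, false)) with hv3
  set v4 : Vx p f1 f2 := Sum.inl (Sum.inl (⟨0, by omega⟩, true)) with hv4
  set v5 : Vx p f1 f2 := Sum.inr (Sum.inr ⟨0, by omega⟩) with hv5
  have e34 : P.Adj v3 v4 := hle (Or.inr ⟨_, _, rfl, rfl, by simp [inner]⟩)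
  have e13 : P.Adj v1 v3 := hcol _ _ (by simp [hv1, hv3, col])
  have e14 : P.Adj v1 v4 := hcol _ _ (by simp [hv1, hv4, col])
  have e15 : P.Adj v1 v5 := hcol _ _ (by simp [hv1, hv5, col])
  have e23 : P.Adj v2 v3 := hcol _ _ (by simp [hv2, hv3, col])
  have e24 : P.Adj v2 v4 := hcol _ _ (by simp [hv2, hv4, col])
  have e25 : P.Adj v2 v5 := hcol _ _ (by simp [hv2, hv5, col])
  have e35 : P.Adj v3 v5 := hcol _ _ (by simp [hv3, hv5, col])
  have e45 : P.Adj v4 v5 := hcol _ _ (by simp [hv4, hv5, col])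
  refine no_clique5 hpar hcol hP.free {v1, v2, v3, v4, v5} ?_ ?_
  · intro x hx y hy hxy
    simp only [Finset.coe_insert, Finset.coe_singleton, Set.mem_insert_iff,
      Set.mem_singleton_iff] at hx hy
    rcases hx with rfl | rfl | rfl | rfl | rfl <;> rcases hy with h' | h' | h' | h' | h' <;>
      first
      | (exact absurd h'.symm hxy)
      | (rw [h']; first | assumption | (apply SimpleGraph.Adj.symm; assumption))
  · have n12 := h.ne
    have n13 := e13.ne
    have n23 := e23.ne
    have n14 := e14.ne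
    have n15 := e15.ne
    have n24 := e24.ne
    have n25 := e25.ne
    have n34 := e34.ne
    have n35 := e35.ne
    have n45 := e45.ne
    rw [Finset.card_insert_of_notMem, Finset.card_insert_of_notMem, Finset.card_insert_of_notMem,
      Finset.card_insert_of_notMem, Finset.card_singleton]
    · simp [n45]
    · simp [n34, n35]
    · simp [n23, n24, n25]
    · simp [n12, n13, n14, n15]

end Pool.Agent.FUni
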