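import Pool.Agent.Lib.FUni.Conn
import Pool.Agent.Lib.FUni.Defs

set_option autoImplicit false

namespace Pool.Agent.FUni

open SimpleGraph

variable {V W : Type}

/-- Build a complete minor from branch sets indexed by any large enough finite type. -/
theorem HasCompleteMinor.of_index {G : SimpleGraph V} {t : ℕ} {ι : Type} [Fintype ι]
    (ht : t ≤ Fintype.card ι) (B : ι → Set V) (hne : ∀ i, (B i).Nonempty)
    (hc : ∀ i, Cn G (B i)) (hd : ∀ i j, i ≠ j → Disjoint (B i) (B j))
    (ha : ∀ i j, i ≠ j → ∃ x ∈ B i, ∃ y ∈ B j, G.Adj x y) : HasCompleteMinor G t := by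
  have hcard : Fintype.card (Fin t) ≤ Fintype.card ι := by simpa using ht
  obtain ⟨f⟩ := Function.Embedding.nonempty_of_card_le hcard
  refine ⟨fun i => B (f i), fun i => connected_iff_cn.mpr ⟨hc _, hne _⟩, ?_, ?_⟩
  · intro i j hij
    exact hd _ _ (fun h => hij (f.injective h))
  · intro i j hij
    exact ha _ _ (fun h => hij (f.injective h))

/-- Minor models compose. -/
theorem HasCompleteMinor.of_model {G : SimpleGraph V} {H : SimpleGraph W} {t : ℕ}
    (M : V → Set W) (hne : ∀ v, (M v).Nonempty) (hc : ∀ v, Cn H (M v))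
    (hd : ∀ u v, u ≠ v → Disjoint (M u) (M v))
    (ha : ∀ u v, G.Adj u v → ∃ x ∈ M u, ∃ y ∈ M v, H.Adj x y)
    (h : HasCompleteMinor G t) : HasCompleteMinor H t := by
  obtain ⟨B, hB1, hB2, hB3⟩ := h
  refine HasCompleteMinor.of_index (ι := Fin t) (by simp) (fun i => ⋃ v ∈ B i, M v) ?_ ?_ ?_ ?_
  · intro i
    obtain ⟨_, x, hx⟩ := connected_iff_cn.mp (hB1 i)
    obtain ⟨y, hy⟩ := hne x
    exact ⟨y, Set.mem_biUnion hx hy⟩
  · intro i
    obtain ⟨hcn, x0, hx0⟩ := connected_iff_cn.mp (hB1 i)
    obtain ⟨c, hc0⟩ := hne x0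
    apply Cn.of_center c
    intro y hy
    simp only [Set.mem_iUnion, exists_prop] at hy
    obtain ⟨v, hv, hyv⟩ := hy
    have hr := hcn x0 hx0 v hv
    have key : ∀ z, Rch G (B i) x0 z → z ∈ B i ∧ ∀ y ∈ M z, Rch H (⋃ v ∈ B i, M v) c y := by
      intro z hz
      induction hz with
      | refl =>
        refine ⟨hx0, ?_⟩
        intro y hy
        exact (hc x0 c hc0 y hy).mono (le_refl _) (Set.subset_biUnion_of_mem hx0)
      | @tail u w _ h2 ih =>
        refine ⟨h2.2.2, ?_⟩
        intro y hy
        obtain ⟨a, ha1, b, hb1, hab⟩ := ha u w h2.1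
        refine (ih.2 a ha1).trans' ((Rch.single' hab (Set.mem_biUnion h2.2.1 ha1)
          (Set.mem_biUnion h2.2.2 hb1)).trans' ?_)
        exact (hc w b hb1 y hy).mono (le_refl _) (Set.subset_biUnion_of_mem h2.2.2)
    exact (key v hr).2 y hyv
  · intro i j hij
    rw [Set.disjoint_left]
    intro x hx hx'
    simp only [Set.mem_iUnion, exists_prop] at hx hx'
    obtain ⟨u, hu, hxu⟩ := hx
    obtain ⟨v, hv, hxv⟩ := hx'
    have huv : u ≠ v := by
      rintro rfl
      exact Set.disjoint_left.mp (hB2 i j hij) hu hv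
    exact Set.disjoint_left.mp (hd u v huv) hxu hxv
  · intro i j hij
    obtain ⟨u, hu, v, hv, huv⟩ := hB3 i j hij
    obtain ⟨x, hx, y, hy, hxy⟩ := ha u v huv
    exact ⟨x, Set.mem_biUnion hu hx, y, Set.mem_biUnion hv hy, hxy⟩

/-- Complete minors are inherited along injective homomorphisms. -/
theorem HasCompleteMinor.of_inj {G : SimpleGraph V} {H : SimpleGraph W} {t : ℕ} (f : V → W)
    (hf : Function.Injective f) (ha : ∀ u v, G.Adj u v → H.Adj (f u) (f v))
    (h : HasCompleteMinor G t) : HasCompleteMinor H t := by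
  refine HasCompleteMinor.of_model (fun v => {f v}) ?_ ?_ ?_ ?_ h
  · intro v; exact ⟨f v, rfl⟩
  · intro v; exact Cn.singleton _ _
  · intro u v huv
    rw [Set.disjoint_singleton]
    exact fun h => huv (hf h)
  · intro u v huv
    exact ⟨f u, rfl, f v, rfl, ha u v huv⟩

theorem HasCompleteMinor.mono {G H : SimpleGraph V} {t : ℕ} (hGH : G ≤ H)
    (h : HasCompleteMinor G t) : HasCompleteMinor H t :=
  h.of_inj id Function.injective_id (fun _ _ huv => hGH huv)

/-- A `K_t` minor on few vertices forces a large clique. -/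
theorem HasCompleteMinor.exists_clique [Fintype V] {G : SimpleGraph V} {t : ℕ}
    (h : HasCompleteMinor G t) :
    ∃ s : Finset V, G.IsClique (s : Set V) ∧ 2 * t ≤ Fintype.card V + s.card := by
  classical
  obtain ⟨B, hB1, hB2, hB3⟩ := h
  have hne : ∀ i, (B i).Nonempty := fun i => (connected_iff_cn.mp (hB1 i)).2
  choose x hx using hne
  set S : Finset (Fin t) := Finset.univ.filter (fun i => B i = {x i}) with hS
  have hxinj : Function.Injective x := by
    intro i j hij
    by_contra hne
    exact Set.disjoint_left.mp (hB2 i j hne) (hx i) (hij ▸ hx j)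
  refine ⟨S.image x, ?_, ?_⟩
  · intro a ha b hb hab
    simp only [Finset.coe_image, Set.mem_image, Finset.mem_coe] at ha hb
    obtain ⟨i, hi, rfl⟩ := ha
    obtain ⟨j, hj, rfl⟩ := hb
    have hij : i ≠ j := fun h => hab (by rw [h])
    obtain ⟨u, hu, v, hv, huv⟩ := hB3 i j hij
    have hi' : B i = {x i} := by simpa [hS] using hi
    have hj' : B j = {x j} := by simpa [hS] using hj
    rw [hi', Set.mem_singleton_iff] at hu
    rw [hj', Set.mem_singleton_iff] at hv
    rw [hu, hv] at huv
    exact huv
  · rw [Finset.card_image_of_injective _ hxinj]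
    -- sum of sizes
    have hdisj : ∀ i ∈ (Finset.univ : Finset (Fin t)), ∀ j ∈ (Finset.univ : Finset (Fin t)),
        i ≠ j → Disjoint ((B i).toFinset) ((B j).toFinset) := by
      intro i _ j _ hij
      rw [Set.disjoint_toFinset]
      exact hB2 i j hij
    have h1 : ∑ i : Fin t, (B i).toFinset.card ≤ Fintype.card V := by
      rw [← Finset.card_biUnion hdisj]
      exact Finset.card_le_univ _
    have h2 : ∀ i : Fin t, 2 ≤ (B i).toFinset.card + (if i ∈ S then 1 else 0) := by
      intro i
      by_cases hi : i ∈ S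
      · have : 1 ≤ (B i).toFinset.card := by
          rw [Nat.one_le_iff_ne_zero, Finset.card_ne_zero]
          exact ⟨x i, by simpa using hx i⟩
        simp only [hi, if_true]; omega
      · simp only [hi, if_false, add_zero]
        have hi' : B i ≠ {x i} := by simpa [hS] using hi
        have : ∃ y ∈ B i, y ≠ x i := by
          by_contra hcon
          push Not at hcon
          apply hi'
          ext z
          constructor
          · intro hz; exact hcon z hz
          · intro hz; rw [Set.mem_singleton_iff] at hz; rw [hz]; exact hx i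
        obtain ⟨y, hy, hyx⟩ := this
        have hsub : ({y, x i} : Finset V) ⊆ (B i).toFinset := by
          intro z hz
          simp only [Finset.mem_insert, Finset.mem_singleton] at hz
          rcases hz with rfl | rfl
          · simpa using hy
          · simpa using hx i
        have := Finset.card_le_card hsub
        rw [Finset.card_pair hyx] at this
        exact this
    have h3 : ∑ i : Fin t, 2 ≤ ∑ i : Fin t, ((B i).toFinset.card + (if i ∈ S then 1 else 0)) :=
      Finset.sum_le_sum (fun i _ => h2 i)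
    rw [Finset.sum_add_distrib] at h3
    have h4 : ∑ i : Fin t, (if i ∈ S then 1 else 0) = S.card := by simp
    have h5 : ∑ _i : Fin t, 2 = t * 2 := by simp
    rw [h4, h5] at h3
    omega

end Pool.Agent.FUni
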