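import Pool.Agent.Lib.FUni.Minor

set_option autoImplicit false

namespace Pool.Agent.FUni

open SimpleGraph

variable {V W : Type}

/-- Clique plus bichromatic perfect matching of the rest gives a complete minor. -/
theorem HasCompleteMinor.of_clique_color [Fintype V] {G : SimpleGraph V}
    (col : V → ℕ) (hadj : ∀ x y, col x ≠ col y → G.Adj x y) (I : Finset V)
    (hI : G.IsClique (I : Set V)) (h : ℕ) (hcard : Fintype.card V = I.card + 2 * h)
    (hcol : ∀ c, ∀ S : Finset V, (∀ x ∈ S, x ∉ I ∧ col x = c) → S.card ≤ h) :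
    HasCompleteMinor G (I.card + h) := by
  classical
  have hJ : Fintype.card {x : V // x ∉ I} = 2 * h := by
    have h1 := Fintype.card_subtype_compl (fun x => x ∈ I)
    have h2 : Fintype.card {x // x ∈ I} = I.card := Fintype.card_coe I
    rw [h1, h2]; omega
  set e0 : {x : V // x ∉ I} ≃ Fin (2 * h) := Fintype.equivFinOfCardEq hJ with he0
  set f : Fin (2 * h) → ℕ := fun i => col (e0.symm i).1 with hf
  set σ := Tuple.sort f with hσ
  have hmono : Monotone (f ∘ σ) := Tuple.monotone_sort f
  set g : Fin (2 * h) → V := fun i => (e0.symm (σ i)).1 with hg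
  have hginj : Function.Injective g := by
    intro i j hij
    exact σ.injective (e0.symm.injective (Subtype.ext hij))
  have hgI : ∀ i, g i ∉ I := fun i => (e0.symm (σ i)).2
  have hgmono : ∀ i j, i ≤ j → col (g i) ≤ col (g j) := fun i j hij => hmono hij
  -- the two halves
  set a : Fin h → V := fun j => g ⟨j.1, by omega⟩ with ha
  set b : Fin h → V := fun j => g ⟨j.1 + h, by omega⟩ with hb
  have hab : ∀ j, col (a j) ≠ col (b j) := by
    intro j hjj
    have hS := hcol (col (a j)) ((Finset.univ.filter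
      (fun i : Fin (2 * h) => j.1 ≤ i.1 ∧ i.1 ≤ j.1 + h)).image g) ?_
    · rw [Finset.card_image_of_injective _ hginj] at hS
      have hbig : h + 1 ≤ (Finset.univ.filter
          (fun i : Fin (2 * h) => j.1 ≤ i.1 ∧ i.1 ≤ j.1 + h)).card := by
        have : (Finset.range (h + 1)).card ≤ (Finset.univ.filter
            (fun i : Fin (2 * h) => j.1 ≤ i.1 ∧ i.1 ≤ j.1 + h)).card := by
          apply Finset.card_le_card_of_injOn
            (fun k => if hk : j.1 + k < 2 * h then (⟨j.1 + k, hk⟩ : Fin (2 * h)) else ⟨j.1, by omega⟩)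
          · intro k hk
            simp only [Finset.coe_range, Set.mem_Iio] at hk
            have hk2 : j.1 + k < 2 * h := by have := j.2; omega
            simp only [hk2, dif_pos, Finset.coe_filter, Finset.mem_univ, true_and,
              Set.mem_ofPred_eq]
            omega
          · intro k hk k' hk' hkk
            simp only [Finset.coe_range, Set.mem_Iio] at hk hk'
            have hk2 : j.1 + k < 2 * h := by have := j.2; omega
            have hk3 : j.1 + k' < 2 * h := by have := j.2; omega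
            simp only [hk2, hk3, dif_pos, Fin.mk.injEq] at hkk
            omega
        simpa using this
      omega
    · intro x hx
      simp only [Finset.mem_image, Finset.mem_filter, Finset.mem_univ, true_and] at hx
      obtain ⟨i, ⟨hi1, hi2⟩, rfl⟩ := hx
      refine ⟨hgI i, ?_⟩
      have h1 : col (a j) ≤ col (g i) := hgmono _ _ (by
        rw [Fin.le_def]; exact hi1)
      have h2 : col (g i) ≤ col (b j) := hgmono _ _ (by
        rw [Fin.le_def]; exact hi2)
      omega
  have hanb : ∀ i j, a i ≠ b j := by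
    intro i j hij
    have := hginj hij
    rw [Fin.mk.injEq] at this
    omega
  have hainj : Function.Injective a := by
    intro i j hij
    have := hginj hij
    rw [Fin.mk.injEq] at this
    exact Fin.ext this
  have hbinj : Function.Injective b := by
    intro i j hij
    have := hginj hij
    rw [Fin.mk.injEq] at this
    exact Fin.ext (by omega)
  -- any vertex is adjacent to one end of each pair
  have hdom : ∀ z j, ∃ w ∈ ({a j, b j} : Set V), G.Adj z w := by
    intro z j
    by_cases hz : col z = col (a j)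
    · exact ⟨b j, by simp, hadj _ _ (by rw [hz]; exact hab j)⟩
    · exact ⟨a j, by simp, hadj _ _ hz⟩
  refine HasCompleteMinor.of_index (ι := {x // x ∈ I} ⊕ Fin h) (by simp)
    (fun s => Sum.elim (fun x => ({x.1} : Set V)) (fun j => ({a j, b j} : Set V)) s) ?_ ?_ ?_ ?_
  · rintro (x | j)
    · exact ⟨x.1, rfl⟩
    · exact ⟨a j, by simp⟩
  · rintro (x | j)
    · exact Cn.singleton _ _
    · have : ({a j, b j} : Set V) = {a j} ∪ {b j} := Set.insert_eq _ _
      simp only [Sum.elim_inr, this]
      exact (Cn.singleton G (a j)).union_adj (Cn.singleton G (b j)) rfl rfl (hadj _ _ (hab j))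
  · rintro (x | i) (y | j) hne
    · simp only [Sum.elim_inl, Set.disjoint_singleton]
      intro hxy
      exact hne (by rw [Subtype.ext hxy])
    · simp only [Sum.elim_inl, Sum.elim_inr, Set.disjoint_singleton_left, Set.mem_insert_iff,
        Set.mem_singleton_iff, not_or]
      exact ⟨fun h => hgI _ (h ▸ x.2), fun h => hgI _ (h ▸ x.2)⟩
    · simp only [Sum.elim_inl, Sum.elim_inr, Set.disjoint_singleton_right, Set.mem_insert_iff,
        Set.mem_singleton_iff, not_or]
      exact ⟨fun h => hgI _ (h ▸ y.2), fun h => hgI _ (h ▸ y.2)⟩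
    · have hij : i ≠ j := fun h => hne (by rw [h])
      rw [Set.disjoint_left]
      intro z hz hz'
      simp only [Sum.elim_inr, Set.mem_insert_iff, Set.mem_singleton_iff] at hz hz'
      rcases hz with rfl | rfl <;> rcases hz' with h' | h'
      · exact hij (hainj h')
      · exact hanb _ _ h'
      · exact hanb _ _ h'.symm
      · exact hij (hbinj h')
  · rintro (x | i) (y | j) hne
    · refine ⟨x.1, rfl, y.1, rfl, ?_⟩
      exact hI x.2 y.2 (fun h => hne (by rw [Subtype.ext h]))
    · obtain ⟨w, hw, hzw⟩ := hdom x.1 j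
      exact ⟨x.1, rfl, w, hw, hzw⟩
    · obtain ⟨w, hw, hzw⟩ := hdom y.1 i
      exact ⟨w, hw, y.1, rfl, hzw.symm⟩
    · obtain ⟨w, hw, hzw⟩ := hdom (a i) j
      exact ⟨a i, by simp, w, hw, hzw⟩

section Cut

variable {G : SimpleGraph V} {v : V} {L R : Set V}

theorem cn_inter_of_cut (hLR : ∀ x, x ∈ L ∨ x ∈ R) (hv : ∀ x, x ∈ L → x ∈ R → x = v)
    (hvL : v ∈ L) (hE : ∀ x y, G.Adj x y → (x ∈ L ∧ y ∈ L) ∨ (x ∈ R ∧ y ∈ R))
    {B : Set V} (hB : Cn G B) (hBL : (B ∩ L).Nonempty) :
    Cn G (B ∩ L) ∧ (v ∉ B → B ⊆ L) := by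
  classical
  have hsub : v ∉ B → B ⊆ L := by
    intro hvB y hy
    by_contra hyL
    obtain ⟨x0, hx0, hx0L⟩ := hBL
    obtain ⟨u, w, hu, huL, hw, hwL, huw⟩ := hB.crossing hx0 hy hx0L hyL
    rcases hE u w huw with h | h
    · exact hwL h.2
    · have := hv u huL h.1
      exact hvB (this ▸ hu)
  refine ⟨?_, hsub⟩
  by_cases hvB : v ∈ B
  · have him := hB.image (H := G) (fun x => if x ∈ L then x else v) (by
      intro a _ b _ hab
      rcases hE a b hab with h | h
      · right; simp only [h.1, h.2, if_true]; exact hab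
      · left
        by_cases ha : a ∈ L <;> by_cases hb : b ∈ L
        · simp only [ha, hb, if_true]
          rw [hv a ha h.1, hv b hb h.2]
        · simp only [ha, hb, if_true, if_false]
          exact hv a ha h.1
        · simp only [ha, hb, if_true, if_false]
          exact (hv b hb h.2).symm
        · simp only [ha, hb, if_false])
    have heq : (fun x => if x ∈ L then x else v) '' B = B ∩ L := by
      ext y
      constructor
      · rintro ⟨x, hx, rfl⟩
        by_cases hxL : x ∈ L
        · simp only [hxL, if_true]; exact ⟨hx, hxL⟩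
        · simp only [hxL, if_false]; exact ⟨hvB, hvL⟩
      · rintro ⟨hy, hyL⟩
        exact ⟨y, hy, by simp only [hyL, if_true]⟩
    rw [heq] at him
    exact him
  · have : B ∩ L = B := Set.inter_eq_left.mpr (hsub hvB)
    rw [this]; exact hB

theorem HasCompleteMinor.of_cut_left {t : ℕ} (hLR : ∀ x, x ∈ L ∨ x ∈ R)
    (hv : ∀ x, x ∈ L → x ∈ R → x = v) (hvL : v ∈ L)
    (hE : ∀ x y, G.Adj x y → (x ∈ L ∧ y ∈ L) ∨ (x ∈ R ∧ y ∈ R))
    (B : Fin t → Set V) (hB1 : ∀ i, Cn G (B i)) (hB2 : ∀ i j, i ≠ j → Disjoint (B i) (B j))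
    (hB3 : ∀ i j, i ≠ j → ∃ x ∈ B i, ∃ y ∈ B j, G.Adj x y)
    (hall : ∀ i, (B i ∩ L).Nonempty) : HasCompleteMinor (G.induce L) t := by
  have hk := fun i => cn_inter_of_cut hLR hv hvL hE (hB1 i) (hall i)
  refine HasCompleteMinor.of_index (ι := Fin t) (by simp) (fun i => {x : L | x.1 ∈ B i}) ?_ ?_ ?_ ?_
  · intro i
    obtain ⟨x, hx, hxL⟩ := hall i
    exact ⟨⟨x, hxL⟩, hx⟩
  · intro i x hx y hy
    have hr := (hk i).1 x.1 ⟨hx, x.2⟩ y.1 ⟨hy, y.2⟩
    have key : ∀ z, Rch G (B i ∩ L) x.1 z → ∃ hz : z ∈ L,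
        Rch (G.induce L) {x : L | x.1 ∈ B i} x ⟨z, hz⟩ := by
      intro z hz
      induction hz with
      | refl => exact ⟨x.2, Rch.refl' _ _ _⟩
      | @tail u w _ h2 ih =>
        obtain ⟨hu, hr⟩ := ih
        exact ⟨h2.2.2.2, hr.trans' (Rch.single' h2.1 h2.2.1.1 h2.2.2.1)⟩
    exact (key y.1 hr).2
  · intro i j hij
    rw [Set.disjoint_left]
    intro x hx hx'
    exact Set.disjoint_left.mp (hB2 i j hij) hx hx'
  · intro i j hij
    obtain ⟨x, hx, y, hy, hxy⟩ := hB3 i j hij
    have hboth : x ∈ L ∧ y ∈ L := by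
      rcases hE x y hxy with h | h
      · exact h
      · by_cases hvi : v ∈ B i
        · have hvj : v ∉ B j := fun h' => Set.disjoint_left.mp (hB2 i j hij) hvi h'
          have hyL := (hk j).2 hvj hy
          exact absurd (hv y hyL h.2 ▸ hy) hvj
        · have hxL := (hk i).2 hvi hx
          exact absurd (hv x hxL h.1 ▸ hx) hvi
    exact ⟨⟨x, hboth.1⟩, hx, ⟨y, hboth.2⟩, hy, hxy⟩

/-- A complete minor lives on one side of a cut vertex. -/
theorem HasCompleteMinor.of_cut {t : ℕ} (hLR : ∀ x, x ∈ L ∨ x ∈ R)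
    (hv : ∀ x, x ∈ L → x ∈ R → x = v) (hvL : v ∈ L) (hvR : v ∈ R)
    (hE : ∀ x y, G.Adj x y → (x ∈ L ∧ y ∈ L) ∨ (x ∈ R ∧ y ∈ R))
    (h : HasCompleteMinor G t) :
    HasCompleteMinor (G.induce L) t ∨ HasCompleteMinor (G.induce R) t := by
  obtain ⟨B, hB1, hB2, hB3⟩ := h
  have hB1' : ∀ i, Cn G (B i) := fun i => (connected_iff_cn.mp (hB1 i)).1
  have hne : ∀ i, (B i).Nonempty := fun i => (connected_iff_cn.mp (hB1 i)).2
  by_cases hall : ∀ i, (B i ∩ L).Nonempty
  · left
    exact HasCompleteMinor.of_cut_left hLR hv hvL hE B hB1' hB2 hB3 hall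
  · right
    push Not at hall
    obtain ⟨i, hi⟩ := hall
    refine HasCompleteMinor.of_cut_left (v := v) (L := R) (R := L) (fun x => (hLR x).symm)
      (fun x h1 h2 => hv x h2 h1) hvR (fun x y hxy => (hE x y hxy).symm) B hB1' hB2 hB3 ?_
    intro j
    by_contra hj
    rw [Set.not_nonempty_iff_eq_empty] at hj
    by_cases hij : i = j
    · subst hij
      obtain ⟨x, hx⟩ := hne i
      rcases hLR x with hx' | hx'
      · have : x ∈ B i ∩ L := ⟨hx, hx'⟩
        rw [hi] at this; exact this
      · have : x ∈ B i ∩ R := ⟨hx, hx'⟩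
        rw [hj] at this; exact this
    · obtain ⟨x, hx, y, hy, hxy⟩ := hB3 i j hij
      rcases hE x y hxy with h | h
      · have : x ∈ B i ∩ L := ⟨hx, h.1⟩
        rw [hi] at this; exact this
      · have : y ∈ B j ∩ R := ⟨hy, h.2⟩
        rw [hj] at this; exact this

end Cut

end Pool.Agent.FUni
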