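import Pool.Agent.Lib.FUni.Family

set_option autoImplicit false

namespace Pool.Agent.FUni

open SimpleGraph

variable {t p f1 f2 : ℕ}

theorem Good.comap_equiv {V V' : Type} (e : V' ≃ V) {P : SimpleGraph V} (hP : Good t P) :
    Good t (P.comap e) := by
  refine ⟨?_, ?_, ?_⟩
  · intro h
    exact hP.free (h.of_inj e e.injective (fun _ _ h => h))
  · intro G hPG hG
    have h1 : P ≤ G.comap e.symm := by
      intro x y hxy
      apply hPG
      change P.Adj (e (e.symm x)) (e (e.symm y))
      simpa using hxy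
    have h2 : ¬ HasCompleteMinor (G.comap e.symm) t := fun h =>
      hG (h.of_inj e.symm e.symm.injective (fun _ _ h => h))
    have h3 := hP.max _ h1 h2
    intro x y hxy
    apply h3
    change G.Adj (e.symm (e x)) (e.symm (e y))
    simpa using hxy
  · intro Q hQ
    have hQ' : P.IsClique (e.symm ⁻¹' Q) := by
      intro x hx y hy hxy
      have := hQ hx hy (fun h => hxy (e.symm.injective h))
      change P.Adj (e (e.symm x)) (e (e.symm y)) at this
      simpa using this
    obtain ⟨h1, x, hx⟩ := hP.robust _ hQ'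
    refine ⟨?_, ⟨e.symm x, hx⟩⟩
    have h2 := h1.image (H := P.comap e) e.symm (fun a _ b _ hab => Or.inr (by
      change P.Adj (e (e.symm a)) (e (e.symm b))
      simpa using hab))
    have h3 : e.symm '' (e.symm ⁻¹' Q)ᶜ = Qᶜ := by
      ext y
      constructor
      · rintro ⟨z, hz, rfl⟩
        exact hz
      · intro hy
        exact ⟨e y, by simpa using hy, by simp⟩
    rw [h3] at h2
    exact h2

theorem exists_equiv_roots {V : Type} [Fintype V] {d : ℕ} (hd : 1 ≤ d)
    (hcard : Fintype.card V = d + 1) (x0 y0 : V) (hxy : x0 ≠ y0) :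
    ∃ e : Fin (d + 1) ≃ V, e 0 = x0 ∧ e (Fin.last d) = y0 := by
  classical
  have e0 : Fin (d + 1) ≃ V := (Fintype.equivFinOfCardEq hcard).symm
  set e1 := e0.trans (Equiv.swap (e0 0) x0) with he1
  have h1 : e1 0 = x0 := by simp [he1]
  have hne : e1 (Fin.last d) ≠ x0 := by
    rw [← h1]
    intro h
    have := e1.injective h
    have h2 := congrArg Fin.val this
    simp only [Fin.val_last, Fin.val_zero] at h2
    omega
  refine ⟨e1.trans (Equiv.swap (e1 (Fin.last d)) y0), ?_, ?_⟩
  · simp only [Equiv.trans_apply, h1]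
    exact Equiv.swap_apply_of_ne_of_ne hne.symm hxy
  · simp

theorem exists_family (hpar : Params t p f1 f2) (d : ℕ) (hd : d + 1 = 3 * p + f1 + f2) :
    ∃ (ι : Type) (_ : Fintype ι) (Q : ι → SimpleGraph (Fin (d + 1))),
      (∀ τ, Good t (Q τ)) ∧ (∀ τ, ¬ (Q τ).Adj 0 (Fin.last d)) ∧
      (∀ σ τ, Nonempty (Q σ ≃g Q τ) → σ = τ) ∧
      2 ^ (p * p) ≤ Fintype.card ι * (d + 1).factorial := by
  classical
  have hpar' := hpar
  obtain ⟨ht, hsum, hp, hf1, hf2, hp5, hf15, hf25⟩ := hpar'
  obtain ⟨e, he0, he1⟩ := exists_equiv_roots (V := Vx p f1 f2) (d := d) (by omega)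
    (by rw [card_Vx, hd]) (Sum.inr (Sum.inl ⟨0, by omega⟩)) (Sum.inr (Sum.inl ⟨1, by omega⟩))
    (by simp)
  choose P hle hgood using exists_good (f1 := f1) (f2 := f2) hpar
  set R : (Fin p → Fin p → Bool) → SimpleGraph (Fin (d + 1)) := fun χ => (P χ).comap e with hR
  have hRinj : Function.Injective R := by
    intro χ χ' h
    funext i j
    have h1 := adj_iff_of_good hpar χ (hle χ) (hgood χ) i (χ i j) j
    have h2 := adj_iff_of_good hpar χ' (hle χ') (hgood χ') i (χ i j) j
    have h3 : (R χ).Adj (e.symm (Sum.inl (Sum.inl (i, χ i j)))) (e.symm (Sum.inl (Sum.inr j))) := by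
      change (P χ).Adj (e (e.symm _)) (e (e.symm _))
      rw [Equiv.apply_symm_apply, Equiv.apply_symm_apply, h1]
    rw [h] at h3
    change (P χ').Adj (e (e.symm _)) (e (e.symm _)) at h3
    rw [Equiv.apply_symm_apply, Equiv.apply_symm_apply, h2] at h3
    exact h3.symm
  let S : Setoid (Fin p → Fin p → Bool) :=
    { r := fun χ χ' => Nonempty (R χ ≃g R χ')
      iseqv := ⟨fun _ => ⟨SimpleGraph.Iso.refl⟩, fun ⟨h⟩ => ⟨h.symm⟩,
        fun ⟨h⟩ ⟨h'⟩ => ⟨h.trans h'⟩⟩ }
  let _ : Fintype (Quotient S) := Fintype.ofFinite _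
  refine ⟨Quotient S, inferInstance, fun τ => R τ.out, ?_, ?_, ?_, ?_⟩
  · intro τ
    exact (hgood _).comap_equiv e
  · intro τ h
    change (P _).Adj (e 0) (e (Fin.last d)) at h
    rw [he0, he1] at h
    exact root_of_good hpar _ (hle _) (hgood _) _ _ h
  · intro σ τ h
    exact Quotient.out_equiv_out.mp h
  · have hiso : ∀ χ, Nonempty (R (Quotient.out (Quotient.mk S χ)) ≃g R χ) := by
      intro χ
      exact Quotient.mk_out χ
    let f : (Fin p → Fin p → Bool) → Quotient S × Equiv.Perm (Fin (d + 1)) := fun χ =>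
      (Quotient.mk S χ, (Classical.choice (hiso χ)).toEquiv)
    have hf : Function.Injective f := by
      intro χ χ' h
      simp only [f, Prod.mk.injEq] at h
      obtain ⟨h1, h2⟩ := h
      apply hRinj
      ext a b
      set i1 := Classical.choice (hiso χ) with hi1
      set i2 := Classical.choice (hiso χ') with hi2
      have ha : (R χ).Adj a b ↔ (R (Quotient.out (Quotient.mk S χ))).Adj (i1.symm a) (i1.symm b) :=
        (i1.symm.map_adj_iff).symm
      have hb : (R χ').Adj a b ↔
          (R (Quotient.out (Quotient.mk S χ'))).Adj (i2.symm a) (i2.symm b) :=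
        (i2.symm.map_adj_iff).symm
      have h3 : ∀ x, i1.symm x = i2.symm x := by
        intro x
        have : i1.toEquiv.symm x = i2.toEquiv.symm x := by rw [h2]
        exact this
      rw [ha, hb, h3, h3, h1]
    have hc := Fintype.card_le_of_injective f hf
    rw [Fintype.card_prod, Fintype.card_perm, Fintype.card_fin, Fintype.card_fun,
      Fintype.card_fun, Fintype.card_bool, Fintype.card_fin] at hc
    rw [pow_mul]
    exact hc

end Pool.Agent.FUni
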